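import Pool.Agent.Helper39.BPC.Transp

/-!
PROJECT BP (MP_1cfd37_ag), block C: the main theorem.
-/

set_option autoImplicit false

namespace Pool.Agent.Helper39.BPC

open Complex Matrix

lemma sph_compact (m : ℕ) : IsCompact (Sph m) := by
  refine Metric.isCompact_of_isClosed_isBounded ?_ ?_
  · have : Continuous fun z : Fin m → ℂ => ∑ i, ‖z i‖ ^ 2 := by fun_prop
    exact isClosed_eq this continuous_const
  · refine (Metric.isBounded_closedBall (x := (0 : Fin m → ℂ)) (r := 1)).subset fun z hz => ?_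
    rw [mem_closedBall_zero_iff, pi_norm_le_iff_of_nonneg zero_le_one]
    intro i
    have h1 : ‖z i‖ ^ 2 ≤ 1 := by
      have h2 : ∑ i, ‖z i‖ ^ 2 = 1 := hz
      rw [← h2]
      exact Finset.single_le_sum (f := fun i => ‖z i‖ ^ 2) (fun i _ => by positivity) (Finset.mem_univ i)
    exact (sq_le_one_iff₀ (norm_nonneg _)).mp h1

/-- The sign matrix. -/
def sgM {k : ℕ} (s : Fin k → ℤ) : Matrix (Fin k) (Fin k) ℂ := Matrix.diagonal fun i => (s i : ℂ)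

lemma sgM_sq {k : ℕ} {s : Fin k → ℤ} (hs : ∀ i, s i = 1 ∨ s i = -1) : sgM s * sgM s = 1 := by
  unfold sgM
  rw [Matrix.diagonal_mul_diagonal, ← Matrix.diagonal_one]
  congr 1
  funext i
  rcases hs i with h | h <;> simp [h]

lemma sgM_star {k : ℕ} (s : Fin k → ℤ) : (sgM s)ᴴ = sgM s := by
  unfold sgM
  rw [Matrix.diagonal_conjTranspose]
  congr 1
  funext i
  simp

lemma eq_sgM {a b : ℕ} {sa : Fin a → ℤ} {sb : Fin b → ℤ} {M N : Matrix (Fin a) (Fin b) ℂ}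
    (h : ∀ i j, N i j = (sa i : ℂ) * M i j * (sb j : ℂ)) : N = sgM sa * M * sgM sb := by
  ext i j
  rw [h i j]
  unfold sgM
  rw [Matrix.mul_diagonal, Matrix.diagonal_mul]

lemma sgM_entry {a b : ℕ} (sa : Fin a → ℤ) (sb : Fin b → ℤ) (M : Matrix (Fin a) (Fin b) ℂ) (i : Fin a) (j : Fin b) :
    (sgM sa * M * sgM sb) i j = (sa i : ℂ) * M i j * (sb j : ℂ) := by
  unfold sgM
  rw [Matrix.mul_diagonal, Matrix.diagonal_mul]

/-- Exactness after the transport, at the spot `n`. -/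
lemma ex2_transport {a b c : ℕ} {A0 A1 : Matrix (Fin a) (Fin b) ℂ} {B0 B1 : Matrix (Fin b) (Fin c) ℂ}
    (h0 : Ex2 A0 B0) (h1 : Ex2 A1 B1) {θ : Matrix (Fin b) (Fin b) ℂ} (hθ : θ.det ≠ 0)
    (hc : Pr A1 B1 * θ = θ * Pr A0 B0) : Ex2 A1 (θ * B0) := by
  have hu : IsUnit θ.det := isUnit_iff_ne_zero.mpr hθ
  intro v
  rw [← Pr_fix h1]
  constructor
  · intro hv
    have e1 : θ.mulVec (θ⁻¹.mulVec v) = v := by
      rw [Matrix.mulVec_mulVec, Matrix.mul_nonsing_inv _ hu, Matrix.one_mulVec]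
    have e2 : θ.mulVec ((Pr A0 B0).mulVec (θ⁻¹.mulVec v)) = v := by
      rw [Matrix.mulVec_mulVec, ← hc, ← Matrix.mulVec_mulVec, e1, hv]
    have e3 : (Pr A0 B0).mulVec (θ⁻¹.mulVec v) = θ⁻¹.mulVec v := by
      have := congrArg (fun w => θ⁻¹.mulVec w) e2
      rw [Matrix.mulVec_mulVec, Matrix.nonsing_inv_mul _ hu, Matrix.one_mulVec] at this
      exact this
    obtain ⟨u, hu2⟩ := (h0 _).mp ((Pr_fix h0 _).mp e3)
    exact ⟨u, by rw [← Matrix.mulVec_mulVec, hu2, e1]⟩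
  · rintro ⟨u, rfl⟩
    rw [← Matrix.mulVec_mulVec, Matrix.mulVec_mulVec, hc, ← Matrix.mulVec_mulVec]
    congr 1
    rw [Pr_fix h0]
    exact (h0 _).mpr ⟨u, rfl⟩

lemma ex2_left {a b c : ℕ} {A : Matrix (Fin a) (Fin b) ℂ} {B : Matrix (Fin b) (Fin c) ℂ}
    (h : Ex2 A B) {θ : Matrix (Fin a) (Fin a) ℂ} (hθ : θ.det ≠ 0) : Ex2 (θ * A) B := by
  have hu : IsUnit θ.det := isUnit_iff_ne_zero.mpr hθ
  intro v
  rw [← h v, ← Matrix.mulVec_mulVec]
  constructor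
  · intro hv
    have := congrArg (fun w => θ⁻¹.mulVec w) hv
    rw [Matrix.mulVec_mulVec, Matrix.nonsing_inv_mul _ hu, Matrix.one_mulVec, Matrix.mulVec_zero] at this
    exact this
  · intro hv
    rw [hv, Matrix.mulVec_zero]

/-- BLOCK C, from corollary KC. -/
theorem cMain_of (KC : CorK) (m p n L : ℕ) (hn : 1 ≤ n) (hL : n + 1 < L) (rk : ℕ → ℕ)
    (sg : (i : ℕ) → Fin (rk i) → ℤ)
    (hsg : ∀ i j, sg i j = 1 ∨ sg i j = -1)
    (D : (i : ℕ) → (Fin m → ℂ) → ℝ → Matrix (Fin (rk i)) (Fin (rk (i + 1))) ℂ)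
    (hD : ∀ i ≤ n, ContinuousOn (fun x : (Fin m → ℂ) × ℝ => D i x.1 x.2)
      ({z | ∑ i, ‖z i‖ ^ 2 = 1} ×ˢ Set.Icc 0 1))
    (hD0 : ∀ i, ContinuousOn (fun z => D i z 0) {z | ∑ i, ‖z i‖ ^ 2 = 1})
    (heq : ∀ i a b z s, ∑ i, ‖z i‖ ^ 2 = 1 → s ∈ Set.Icc (0 : ℝ) 1 →
      (i ≤ n ∨ s = 0) → D i (fun a => Complex.I * z a) s a b = (sg i a : ℂ) * D i z s a b * (sg (i + 1) b : ℂ))
    (X1 : ∀ z s, ∑ i, ‖z i‖ ^ 2 = 1 → s ∈ Set.Icc (0 : ℝ) 1 → ∀ i, i + 1 = n → Ex2 (D i z s) (D (i + 1) z s))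
    (X2s : ∀ z, ∑ i, ‖z i‖ ^ 2 = 1 → ∀ v, ∃ u, (D 0 z 1).mulVec u = v)
    (X2 : ∀ z, ∑ i, ‖z i‖ ^ 2 = 1 → ∀ i < n, Ex2 (D i z 1) (D (i + 1) z 1))
    (X3 : ∀ z, ∑ i, ‖z i‖ ^ 2 = 1 → ∀ i, n ≤ i → i + 1 < L → Ex2 (D i z 0) (D (i + 1) z 0))
    (X3i : ∀ z, ∑ i, ‖z i‖ ^ 2 = 1 → ∀ i, i + 1 = L → ∀ u, (D i z 0).mulVec u = 0 → u = 0)
    (c : ℤ) (hc : Odd c)
    (P : ∑ i ∈ Finset.range (L + 1), (-1 : ℤ) ^ i * ∑ j, sg i j = 2 ^ p * c) : m ≤ 2 * p := by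
  obtain ⟨n', rfl⟩ : ∃ n', n = n' + 1 := ⟨n - 1, by omega⟩
  have h01 : (0 : ℝ) ∈ Set.Icc (0 : ℝ) 1 := ⟨le_rfl, zero_le_one⟩
  have h11 : (1 : ℝ) ∈ Set.Icc (0 : ℝ) 1 := ⟨zero_le_one, le_rfl⟩
  obtain ⟨θ, t1, t2, t3, t4⟩ := transport (Sph m) (sph_compact m)
    (fun z s => Pr (D n' z s) (D (n' + 1) z s))
    (Pr_cont (X := (Fin m → ℂ) × ℝ) (A := fun x => D n' x.1 x.2) (B := fun x => D (n' + 1) x.1 x.2)
      (hD n' (by omega)) (hD (n' + 1) le_rfl) (fun x hx => X1 x.1 x.2 hx.1 hx.2 n' rfl))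
    (fun z hz s hs => Pr_idem (X1 z s hz hs n' rfl)) (fun z => fun a => Complex.I * z a) (sgM (sg (n' + 1)))
    (sgM_sq (hsg _))
    (fun z hz s hs => Pr_eqv (sgM_sq (hsg n')) (sgM_sq (hsg (n' + 1))) (sgM_sq (hsg (n' + 2))) (sgM_star _)
      (sgM_star _) (sgM_star _) (eq_sgM fun i j => heq n' i j z s hz hs (Or.inl (by omega)))
      (eq_sgM fun i j => heq (n' + 1) i j z s hz hs (Or.inl le_rfl)))
  let d : (i : ℕ) → (Fin m → ℂ) → Matrix (Fin (rk i)) (Fin (rk (i + 1))) ℂ := fun i z =>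
    if i < n' + 1 then D i z 1 else if h : n' + 1 = i then (h ▸ θ z : Matrix (Fin (rk i)) (Fin (rk i)) ℂ) * D i z 0
      else D i z 0
  have d1 : ∀ i < n' + 1, ∀ z, d i z = D i z 1 := fun i hi z => by simp only [d]; rw [if_pos hi]
  have d2 : ∀ z, d (n' + 1) z = θ z * D (n' + 1) z 0 := fun z => by
    change (if n' + 1 < n' + 1 then D (n' + 1) z 1 else if h : n' + 1 = n' + 1 then
      (h ▸ θ z : Matrix (Fin (rk (n' + 1))) (Fin (rk (n' + 1))) ℂ) * D (n' + 1) z 0 else D (n' + 1) z 0) = _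
    rw [if_neg (by omega), dif_pos rfl]
  have d3 : ∀ i, n' + 1 < i → ∀ z, d i z = D i z 0 := fun i hi z => by
    simp only [d]; rw [if_neg (by omega), dif_neg (by omega)]
  refine exCx KC m p L (by omega) rk sg hsg d ?_ ?_ ?_ ?_ ?_ c hc P
  · intro i hi
    rcases lt_trichotomy i (n' + 1) with h | h | h
    · rw [show d i = fun z => D i z 1 from funext fun z => d1 i h z]
      exact (hD i (by omega)).comp (f := fun z : Fin m → ℂ => (z, (1 : ℝ))) (by fun_prop) (fun x hx => ⟨hx, h11⟩)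
    · subst h
      rw [show d (n' + 1) = fun z => θ z * D (n' + 1) z 0 from funext fun z => d2 z]
      exact mul_contOn t1 (hD0 _)
    · rw [show d i = fun z => D i z 0 from funext fun z => d3 i h z]
      exact hD0 i
  · intro i hi z hz a b
    rcases lt_trichotomy i (n' + 1) with h | h | h
    · rw [d1 i h, d1 i h]
      exact heq i a b z 1 hz h11 (Or.inl (by omega))
    · subst h
      rw [d2, d2, t4 z hz, eq_sgM fun i j => heq (n' + 1) i j z 0 hz h01 (Or.inr rfl), ← sgM_entry]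
      have e : sgM (sg (n' + 1)) * (sgM (sg (n' + 1)) * (D (n' + 1) z 0 * sgM (sg (n' + 1 + 1)))) =
          D (n' + 1) z 0 * sgM (sg (n' + 1 + 1)) := by
        rw [← Matrix.mul_assoc, sgM_sq (hsg _), Matrix.one_mul]
      rw [Matrix.mul_assoc (sgM (sg (n' + 1))) (D (n' + 1) z 0), Matrix.mul_assoc (sgM (sg (n' + 1)) * θ z), e,
        Matrix.mul_assoc (sgM (sg (n' + 1))), Matrix.mul_assoc (sgM (sg (n' + 1))), Matrix.mul_assoc (θ z)]
    · rw [d3 i h, d3 i h]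
      exact heq i a b z 0 hz h01 (Or.inr rfl)
  · intro z hz v
    rw [d1 0 (by omega)]
    exact X2s z hz v
  · intro z hz i hi
    rcases lt_trichotomy (i + 1) (n' + 1) with h | h | h
    · rw [d1 i (by omega), d1 (i + 1) h]
      exact X2 z hz i (by omega)
    · have h' : i = n' := by omega
      subst h'
      rw [d1 i (by omega), d2]
      exact ex2_transport (X1 z 0 hz h01 i rfl) (X1 z 1 hz h11 i rfl) (t2 z hz) (t3 z hz)
    · rcases Nat.lt_or_ge (n' + 1) i with h2 | h2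
      · rw [d3 i h2, d3 (i + 1) (by omega)]
        exact X3 z hz i (by omega) hi
      · have h' : i = n' + 1 := by omega
        subst h'
        rw [d2, d3 (n' + 1 + 1) (by omega)]
        exact ex2_left (X3 z hz _ le_rfl hi) (t2 z hz)
  · intro z hz i hi u hu
    rw [d3 i (by omega)] at hu
    exact X3i z hz i hi u hu

end Pool.Agent.Helper39.BPC
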