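import Mathlib

/-!
PROJECT BP (MP_1cfd37_ag), block C: the matrix version of theorem K (corollary KC), from theorem K.
-/

set_option autoImplicit false

namespace Pool.Agent.Helper39.BPC

open Complex

/-- The statement of theorem K. -/
def TheoremK : Prop :=
  ∀ (m : ℕ) {E F : Type} [NormedAddCommGroup E] [NormedSpace ℂ E] [FiniteDimensional ℂ E]
    [NormedAddCommGroup F] [NormedSpace ℂ F] [FiniteDimensional ℂ F]
    (DE : E →L[ℂ] E) (DF : F →L[ℂ] F) (_ : DE ^ 4 = 1) (_ : DF ^ 4 = 1)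
    (g : (Fin m → ℂ) → (E →L[ℂ] F)) (_ : ContinuousOn g {z | z ≠ 0})
    (_ : ∀ z, z ≠ 0 → Function.Bijective (g z))
    (_ : ∀ z, z ≠ 0 → (g (fun a => Complex.I * z a)).comp DE = DF.comp (g z)),
    ∃ a b : ℤ, LinearMap.trace ℂ E (DE : E →ₗ[ℂ] E) - LinearMap.trace ℂ F (DF : F →ₗ[ℂ] F) =
      (1 - Complex.I) ^ m * ((a : ℂ) + b * Complex.I)

/-- The statement of corollary KC. -/
def CorK : Prop :=
  ∀ (m p : ℕ) {a b : Type} [Fintype a] [Fintype b] [DecidableEq a] [DecidableEq b] (sa : a → ℤ) (sb : b → ℤ)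
    (_ : ∀ i, sa i = 1 ∨ sa i = -1) (_ : ∀ i, sb i = 1 ∨ sb i = -1)
    (g : (Fin m → ℂ) → Matrix b a ℂ) (_ : ContinuousOn g {z | ∑ i, ‖z i‖ ^ 2 = 1})
    (_ : ∀ z, ∑ i, ‖z i‖ ^ 2 = 1 → Function.Bijective (g z).mulVec)
    (_ : ∀ z, ∑ i, ‖z i‖ ^ 2 = 1 → ∀ j i, g (fun a => Complex.I * z a) j i * (sa i : ℂ) = (sb j : ℂ) * g z j i)
    (c : ℤ) (_ : Odd c) (_ : (∑ i, sa i) - ∑ j, sb j = 2 ^ p * c), m ≤ 2 * p

/-- The length of `z`. -/
noncomputable def len {m : ℕ} (z : Fin m → ℂ) : ℝ := Real.sqrt (∑ i, ‖z i‖ ^ 2)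

lemma len_pos {m : ℕ} {z : Fin m → ℂ} (hz : z ≠ 0) : 0 < len z := by
  obtain ⟨i, hi⟩ := Function.ne_iff.mp hz
  refine Real.sqrt_pos.mpr ?_
  refine Finset.sum_pos' (fun j _ => by positivity) ⟨i, Finset.mem_univ _, ?_⟩
  have : 0 < ‖z i‖ := norm_pos_iff.mpr hi
  positivity

lemma len_cont {m : ℕ} : Continuous (len : (Fin m → ℂ) → ℝ) := by
  unfold len; fun_prop

/-- Radial projection. -/
noncomputable def rad {m : ℕ} (z : Fin m → ℂ) : Fin m → ℂ := fun a => ((len z)⁻¹ : ℝ) * z a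

lemma rad_mem {m : ℕ} {z : Fin m → ℂ} (hz : z ≠ 0) : ∑ i, ‖rad z i‖ ^ 2 = 1 := by
  have h := len_pos hz
  have h2 : len z ^ 2 = ∑ i, ‖z i‖ ^ 2 := Real.sq_sqrt (Finset.sum_nonneg fun i _ => by positivity)
  have : ∀ i, ‖rad z i‖ ^ 2 = (len z ^ 2)⁻¹ * ‖z i‖ ^ 2 := by
    intro i
    unfold rad
    rw [norm_mul, mul_pow, Complex.norm_real, Real.norm_of_nonneg (by positivity), inv_pow]
  simp_rw [this]
  rw [← Finset.mul_sum, ← h2]
  field_simp

lemma len_I {m : ℕ} (z : Fin m → ℂ) : len (fun a => Complex.I * z a) = len z := by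
  unfold len; simp

lemma rad_I {m : ℕ} (z : Fin m → ℂ) : rad (fun a => Complex.I * z a) = fun a => Complex.I * rad z a := by
  funext a
  unfold rad
  rw [len_I]; ring

lemma rad_cont {m : ℕ} : ContinuousOn (rad : (Fin m → ℂ) → Fin m → ℂ) {z | z ≠ 0} := by
  unfold rad
  refine continuousOn_pi.mpr fun a => ?_
  refine ContinuousOn.mul ?_ (by fun_prop)
  refine Continuous.comp_continuousOn Complex.continuous_ofReal ?_
  exact ContinuousOn.inv₀ len_cont.continuousOn fun z hz => (len_pos hz).ne'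

/-- Matrices as continuous linear maps. -/
noncomputable def toC (a b : Type) [Fintype a] [Fintype b] [DecidableEq a] :
    Matrix b a ℂ →ₗ[ℂ] ((a → ℂ) →L[ℂ] (b → ℂ)) :=
  (LinearMap.toContinuousLinearMap (𝕜 := ℂ) (E := a → ℂ) (F' := b → ℂ)).toLinearMap.comp
    (Matrix.toLin' (R := ℂ) (m := b) (n := a)).toLinearMap

lemma toC_apply {a b : Type} [Fintype a] [Fintype b] [DecidableEq a] (M : Matrix b a ℂ) (v : a → ℂ) :
    toC a b M v = M.mulVec v := by
  simp [toC]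

lemma toC_cont (a b : Type) [Fintype a] [Fintype b] [DecidableEq a] : Continuous (toC a b) :=
  LinearMap.continuous_of_finiteDimensional _

lemma trace_toC {a : Type} [Fintype a] [DecidableEq a] (M : Matrix a a ℂ) :
    LinearMap.trace ℂ (a → ℂ) ((toC a a M : (a → ℂ) →L[ℂ] (a → ℂ)) : (a → ℂ) →ₗ[ℂ] (a → ℂ)) = M.trace := by
  have : ((toC a a M : (a → ℂ) →L[ℂ] (a → ℂ)) : (a → ℂ) →ₗ[ℂ] (a → ℂ)) = Matrix.toLin' M := by
    ext v; simp [toC]
  rw [this, Matrix.trace_toLin'_eq]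

lemma diag_four {a : Type} [Fintype a] [DecidableEq a] (s : a → ℤ) (hs : ∀ i, s i = 1 ∨ s i = -1) :
    (toC a a (Matrix.diagonal fun i => (s i : ℂ))) ^ 4 = 1 := by
  have h1 : ∀ v, toC a a (Matrix.diagonal fun i => (s i : ℂ)) v = fun i => (s i : ℂ) * v i := by
    intro v; rw [toC_apply]; funext i; rw [Matrix.mulVec_diagonal]
  refine ContinuousLinearMap.ext fun v => ?_
  have e : ((toC a a (Matrix.diagonal fun i => (s i : ℂ))) ^ 4) v =
      toC a a (Matrix.diagonal fun i => (s i : ℂ)) (toC a a (Matrix.diagonal fun i => (s i : ℂ))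
        (toC a a (Matrix.diagonal fun i => (s i : ℂ)) (toC a a (Matrix.diagonal fun i => (s i : ℂ)) v))) := rfl
  rw [e, h1, h1, h1, h1]
  funext i
  change _ = v i
  rcases hs i with h | h <;> simp [h]

/-- COROLLARY KC from theorem K. -/
theorem corK_of (K : TheoremK) : CorK := by
  intro m p a b _ _ _ _ sa sb ha hb g hg hinv heq c hc hsum
  obtain ⟨x, y, hxy⟩ := K m (E := a → ℂ) (F := b → ℂ) (toC a a (Matrix.diagonal fun i => (sa i : ℂ)))
    (toC b b (Matrix.diagonal fun i => (sb i : ℂ))) (diag_four sa ha) (diag_four sb hb)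
    (fun z => toC a b (g (rad z)))
    ((toC_cont a b).comp_continuousOn (hg.comp rad_cont fun z hz => rad_mem hz))
    (by
      intro z hz
      have : (⇑(toC a b (g (rad z))) : (a → ℂ) → (b → ℂ)) = (g (rad z)).mulVec := by
        funext v; exact toC_apply _ _
      rw [this]; exact hinv _ (rad_mem hz))
    (by
      intro z hz
      ext v j
      have e1 : (toC a a (Matrix.diagonal fun i => (sa i : ℂ))) v = fun i => (sa i : ℂ) * v i := by
        rw [toC_apply]; funext i; rw [Matrix.mulVec_diagonal]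
      have e2 : ∀ w, (toC b b (Matrix.diagonal fun i => (sb i : ℂ))) w = fun i => (sb i : ℂ) * w i := by
        intro w; rw [toC_apply]; funext i; rw [Matrix.mulVec_diagonal]
      rw [ContinuousLinearMap.comp_apply, ContinuousLinearMap.comp_apply, e1, e2, toC_apply, toC_apply, rad_I]
      change ∑ i, g (fun a => I * rad z a) j i * ((sa i : ℂ) * v i) = (sb j : ℂ) * ∑ i, g (rad z) j i * v i
      rw [Finset.mul_sum]
      refine Finset.sum_congr rfl fun i _ => ?_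
      rw [← mul_assoc, heq (rad z) (rad_mem hz) j i, mul_assoc])
  rw [trace_toC, trace_toC, Matrix.trace_diagonal, Matrix.trace_diagonal] at hxy
  have h1 : ((2 : ℂ) ^ p * c) = (1 - Complex.I) ^ m * ((x : ℂ) + y * Complex.I) := by
    rw [← hxy]
    have := congrArg (fun t : ℤ => (t : ℂ)) hsum
    push_cast at this
    rw [this]
  have h2 := congrArg Complex.normSq h1
  have h3 : Complex.normSq ((2 : ℂ) ^ p * c) = (4 : ℝ) ^ p * c ^ 2 := by
    rw [map_mul, map_pow]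
    have : Complex.normSq (2 : ℂ) = 4 := by norm_num [Complex.normSq_apply]
    rw [this]
    have : Complex.normSq (c : ℂ) = (c : ℝ) ^ 2 := by
      rw [Complex.normSq_apply]; simp; ring
    rw [this]
  have h4 : Complex.normSq ((1 - Complex.I) ^ m * ((x : ℂ) + y * Complex.I)) = (2 : ℝ) ^ m * (x ^ 2 + y ^ 2) := by
    rw [map_mul, map_pow]
    have e1 : Complex.normSq (1 - Complex.I) = 2 := by norm_num [Complex.normSq_apply]
    have e2 : Complex.normSq ((x : ℂ) + y * Complex.I) = (x : ℝ) ^ 2 + y ^ 2 := by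
      rw [Complex.normSq_apply]; simp; ring
    rw [e1, e2]
  rw [h3, h4] at h2
  have h5 : (4 : ℤ) ^ p * c ^ 2 = 2 ^ m * (x ^ 2 + y ^ 2) := by exact_mod_cast h2
  have h6 : (2 : ℤ) ^ m ∣ 4 ^ p * c ^ 2 := ⟨_, h5⟩
  have h7 : IsCoprime ((2 : ℤ) ^ m) (c ^ 2) := by
    refine IsCoprime.pow ?_
    obtain ⟨k, hk⟩ := hc
    exact ⟨-k, 1, by rw [hk]; ring⟩
  have h8 : (2 : ℤ) ^ m ∣ 4 ^ p := h7.dvd_of_dvd_mul_right h6
  have h9 : (4 : ℤ) ^ p = 2 ^ (2 * p) := by rw [pow_mul]; norm_num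
  rw [h9] at h8
  have h10 : (2 : ℕ) ^ m ∣ 2 ^ (2 * p) := by exact_mod_cast h8
  exact (Nat.pow_dvd_pow_iff_le_right (by norm_num)).mp h10

end Pool.Agent.Helper39.BPC
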