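import Pool.Agent.Helper39.BPC.CorK

/-!
PROJECT BP (MP_1cfd37_ag), block C: an exact complex gives an isomorphism of the even and the odd part.
-/

set_option autoImplicit false

namespace Pool.Agent.Helper39.BPC

open Complex Matrix

/-- Exactness of `B` followed by `A` in the middle. -/
def Ex2 {a b c : ℕ} {K : Type*} [CommRing K] (A : Matrix (Fin a) (Fin b) K) (B : Matrix (Fin b) (Fin c) K) :
    Prop :=
  ∀ v : Fin b → K, A.mulVec v = 0 ↔ ∃ u : Fin c → K, B.mulVec u = v

section one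

variable {rk : ℕ → ℕ} (d : (i : ℕ) → Matrix (Fin (rk i)) (Fin (rk (i + 1))) ℂ)

/-- The differential as a matrix with free source and target. -/
noncomputable def dd (i j : ℕ) : Matrix (Fin (rk i)) (Fin (rk j)) ℂ :=
  if h : i + 1 = j then h ▸ d i else 0

lemma dd_succ (i : ℕ) : dd d i (i + 1) = d i := by
  unfold dd; simp

lemma dd_ne {i j : ℕ} (h : i + 1 ≠ j) : dd d i j = 0 := by
  unfold dd; rw [dif_neg h]

/-- The indices of the total space. -/
abbrev Tot (rk : ℕ → ℕ) (L : ℕ) : Type := Σ i : Fin (L + 1), Fin (rk i)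

/-- `d + d^*`. -/
noncomputable def tot (L : ℕ) : Matrix (Tot rk L) (Tot rk L) ℂ :=
  fun x y => dd d x.1 y.1 x.2 y.2 + star (dd d y.1 x.1 y.2 x.2)

/-- The components of a vector of the total space. -/
noncomputable def comp {L : ℕ} (v : Tot rk L → ℂ) (i : ℕ) : Fin (rk i) → ℂ :=
  if h : i < L + 1 then fun a => v ⟨⟨i, h⟩, a⟩ else 0

lemma comp_of {L : ℕ} (v : Tot rk L → ℂ) (i : Fin (L + 1)) (a : Fin (rk i)) : comp v i a = v ⟨i, a⟩ := by
  unfold comp; rw [dif_pos i.2]

lemma comp_ge {L : ℕ} (v : Tot rk L → ℂ) {i : ℕ} (h : L + 1 ≤ i) : comp v i = 0 := by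
  unfold comp; rw [dif_neg (by omega)]

lemma tot_mulVec {L : ℕ} (v : Tot rk L → ℂ) (x : Tot rk L) :
    (tot d L).mulVec v x = ∑ j ∈ Finset.range (L + 1),
      ((dd d x.1 j).mulVec (comp v j) x.2 + ((dd d j x.1)ᴴ).mulVec (comp v j) x.2) := by
  rw [← Fin.sum_univ_eq_sum_range (fun j =>
      ((dd d x.1 j).mulVec (comp v j) x.2 + ((dd d j x.1)ᴴ).mulVec (comp v j) x.2)) (L + 1)]
  change ∑ y : Tot rk L, (dd d x.1 y.1 x.2 y.2 + star (dd d y.1 x.1 y.2 x.2)) * v y = _
  rw [Fintype.sum_sigma]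
  refine Finset.sum_congr rfl fun j _ => ?_
  change _ = ∑ b, dd d x.1 j x.2 b * comp v j b + ∑ b, star (dd d j x.1 b x.2) * comp v j b
  rw [← Finset.sum_add_distrib]
  refine Finset.sum_congr rfl fun b _ => ?_
  rw [comp_of, add_mul]

lemma tot_zero {L : ℕ} (v : Tot rk L → ℂ) (hv : (tot d L).mulVec v = 0) :
    (d 0).mulVec (comp v 1) = 0 ∧
      ∀ j < L, (d (j + 1)).mulVec (comp v (j + 2)) + ((d j)ᴴ).mulVec (comp v j) = 0 := by
  have key : ∀ i : ℕ, i < L + 1 → ∀ a : Fin (rk i), ∑ j ∈ Finset.range (L + 1),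
      ((dd d i j).mulVec (comp v j) a + ((dd d j i)ᴴ).mulVec (comp v j) a) = 0 := by
    intro i hi a
    have := tot_mulVec d v ⟨⟨i, hi⟩, a⟩
    rw [hv] at this
    exact this.symm
  have key2 : ∀ i : ℕ, i < L + 1 → ∀ a : Fin (rk i), (d i).mulVec (comp v (i + 1)) a +
      ∑ j ∈ Finset.range (L + 1), ((dd d j i)ᴴ).mulVec (comp v j) a = 0 := by
    intro i hi a
    rw [← key i hi a, Finset.sum_add_distrib]
    congr 1
    by_cases h : i + 1 < L + 1
    · rw [Finset.sum_eq_single (i + 1)]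
      · rw [dd_succ]
      · intro j _ hj
        rw [dd_ne d hj.symm]; simp
      · intro h'; exact absurd (Finset.mem_range.mpr h) h'
    · rw [comp_ge v (by omega)]
      rw [Finset.sum_eq_zero]
      · simp
      · intro j hj
        have := Finset.mem_range.mp hj
        rw [dd_ne d (by omega)]; simp
  constructor
  · funext a
    have h := key2 0 (by omega) a
    rw [Finset.sum_eq_zero, add_zero] at h
    · exact h
    · intro j _
      rw [dd_ne d (by omega)]; simp
  · intro j hj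
    funext a
    have h := key2 (j + 1) (by omega) a
    rw [Finset.sum_eq_single j, dd_succ] at h
    · exact h
    · intro k _ hk
      rw [dd_ne d (by omega)]; simp
    · intro h'; exact absurd (Finset.mem_range.mpr (by omega)) h'

lemma dot_self_zero {n : ℕ} (v : Fin n → ℂ) (h : star v ⬝ᵥ v = 0) : v = 0 := by
  have h1 : ∀ i, star (v i) * v i = ((‖v i‖ ^ 2 : ℝ) : ℂ) := by
    intro i
    rw [mul_comm]
    exact_mod_cast Complex.mul_conj' (v i)
  have h2 : ((∑ i, ‖v i‖ ^ 2 : ℝ) : ℂ) = 0 := by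
    rw [← h]
    change _ = ∑ i, star (v i) * v i
    rw [Finset.sum_congr rfl fun i _ => h1 i]
    push_cast; rfl
  have h3 : ∑ i, ‖v i‖ ^ 2 = 0 := by exact_mod_cast h2
  funext i
  have := (Finset.sum_eq_zero_iff_of_nonneg fun i _ => by positivity).mp h3 i (Finset.mem_univ i)
  have h5 : ‖v i‖ = 0 := by
    have := pow_eq_zero_iff (n := 2) (by norm_num) |>.mp this
    exact this
  exact norm_eq_zero.mp h5

lemma adj_zero {a b : ℕ} (A : Matrix (Fin a) (Fin b) ℂ) (v : Fin a → ℂ) (h : A.mulVec (Aᴴ.mulVec v) = 0) :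
    Aᴴ.mulVec v = 0 := by
  apply dot_self_zero
  have : star (Aᴴ.mulVec v) ⬝ᵥ (Aᴴ.mulVec v) = star v ⬝ᵥ (A.mulVec (Aᴴ.mulVec v)) := by
    rw [Matrix.star_mulVec, Matrix.conjTranspose_conjTranspose, ← Matrix.dotProduct_mulVec]
  rw [this, h, dotProduct_zero]

lemma img_zero {a b : ℕ} (A : Matrix (Fin a) (Fin b) ℂ) (v : Fin a → ℂ) (u : Fin b → ℂ) (h : A.mulVec u = v)
    (h' : Aᴴ.mulVec v = 0) : v = 0 := by
  apply dot_self_zero
  have : star v ⬝ᵥ v = star (Aᴴ.mulVec v) ⬝ᵥ u := by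
    rw [Matrix.star_mulVec, Matrix.conjTranspose_conjTranspose, ← Matrix.dotProduct_mulVec, h]
  rw [this, h', star_zero, zero_dotProduct]

/-- The total operator of an exact complex is injective. -/
theorem tot_inj {L : ℕ} (hL : 0 < L) (Xs : ∀ v, ∃ u, (d 0).mulVec u = v)
    (X : ∀ i, i + 1 < L → Ex2 (d i) (d (i + 1))) (Xi : ∀ i, i + 1 = L → ∀ u, (d i).mulVec u = 0 → u = 0)
    (v : Tot rk L → ℂ) (hv : (tot d L).mulVec v = 0) : v = 0 := by
  obtain ⟨h0, h1⟩ := tot_zero d v hv
  have h2 : ∀ j < L, ((d j)ᴴ).mulVec (comp v j) = 0 := by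
    intro j hj
    apply adj_zero
    have h := h1 j hj
    by_cases hj2 : j + 1 < L
    · have e : ((d j)ᴴ).mulVec (comp v j) = (d (j + 1)).mulVec (-comp v (j + 2)) := by
        rw [Matrix.mulVec_neg]
        exact eq_neg_of_add_eq_zero_right h
      exact ((X j hj2) _).mpr ⟨_, e.symm⟩
    · rw [comp_ge v (by omega), Matrix.mulVec_zero, zero_add] at h
      rw [h, Matrix.mulVec_zero]
  have h3 : ∀ j < L, (d j).mulVec (comp v (j + 1)) = 0 := by
    intro j hj
    rcases j with _ | j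
    · exact h0
    · have h := h1 j (by omega)
      rw [h2 j (by omega), add_zero] at h
      exact h
  have h4 : ∀ j, j ≤ L → comp v j = 0 := by
    intro j hj
    rcases j with _ | j
    · obtain ⟨u, hu⟩ := Xs (comp v 0)
      exact img_zero (d 0) _ u hu (h2 0 hL)
    · by_cases hj2 : j + 1 < L
      · obtain ⟨u, hu⟩ := (X j hj2 _).mp (h3 j (by omega))
        exact img_zero (d (j + 1)) _ u hu (h2 (j + 1) hj2)
      · exact Xi j (by omega) _ (h3 j (by omega))
  funext x
  obtain ⟨i, a⟩ := x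
  rw [← comp_of v i a, h4 i (by omega)]
  rfl

/-- The even indices. -/
abbrev Ev (rk : ℕ → ℕ) (L : ℕ) : Type := {x : Tot rk L // Even (x.1 : ℕ)}

/-- The odd indices. -/
abbrev Od (rk : ℕ → ℕ) (L : ℕ) : Type := {x : Tot rk L // ¬ Even (x.1 : ℕ)}

lemma tot_parity {L : ℕ} (x y : Tot rk L) (h : Even (x.1 : ℕ) ↔ Even (y.1 : ℕ)) : tot d L x y = 0 := by
  unfold tot
  rw [dd_ne d, dd_ne d]
  · simp
  · intro h'
    rw [← h', Nat.even_add_one] at h
    tauto
  · intro h'
    rw [← h', Nat.even_add_one] at h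
    tauto

/-- The even-odd block. -/
noncomputable def evod (L : ℕ) : Matrix (Od rk L) (Ev rk L) ℂ := fun x y => tot d L x.1 y.1

/-- The odd-even block. -/
noncomputable def odev (L : ℕ) : Matrix (Ev rk L) (Od rk L) ℂ := fun x y => tot d L x.1 y.1

lemma sum_split {L : ℕ} (f : Tot rk L → ℂ) : ∑ y, f y = ∑ y : Ev rk L, f y.1 + ∑ y : Od rk L, f y.1 := by
  rw [← Fintype.sum_subtype_add_sum_subtype (fun x : Tot rk L => Even (x.1 : ℕ)) f]

theorem evod_inj {L : ℕ} (H : ∀ v : Tot rk L → ℂ, (tot d L).mulVec v = 0 → v = 0) (v : Ev rk L → ℂ)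
    (hv : (evod d L).mulVec v = 0) : v = 0 := by
  classical
  let w : Tot rk L → ℂ := fun x => if h : Even (x.1 : ℕ) then v ⟨x, h⟩ else 0
  have hw1 : ∀ y : Ev rk L, w y.1 = v y := fun y => by simp only [w]; rw [dif_pos y.2]
  have hw2 : ∀ y : Od rk L, w y.1 = 0 := fun y => by simp only [w]; rw [dif_neg y.2]
  have : w = 0 := by
    apply H
    funext x
    change ∑ y, tot d L x y * w y = 0
    rw [sum_split]
    have e2 : ∑ y : Od rk L, tot d L x y.1 * w y.1 = 0 :=
      Finset.sum_eq_zero fun y _ => by rw [hw2, mul_zero]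
    rw [e2, add_zero]
    by_cases hx : Even (x.1 : ℕ)
    · refine Finset.sum_eq_zero fun y _ => ?_
      rw [tot_parity d x y.1 ⟨fun _ => y.2, fun _ => hx⟩, zero_mul]
    · have := congrFun hv ⟨x, hx⟩
      refine Eq.trans (Finset.sum_congr rfl fun y _ => ?_) this
      rw [hw1]; rfl
  funext y
  rw [← hw1, this]; rfl

theorem odev_inj {L : ℕ} (H : ∀ v : Tot rk L → ℂ, (tot d L).mulVec v = 0 → v = 0) (v : Od rk L → ℂ)
    (hv : (odev d L).mulVec v = 0) : v = 0 := by
  classical
  let w : Tot rk L → ℂ := fun x => if h : Even (x.1 : ℕ) then 0 else v ⟨x, h⟩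
  have hw1 : ∀ y : Ev rk L, w y.1 = 0 := fun y => by simp only [w]; rw [dif_pos y.2]
  have hw2 : ∀ y : Od rk L, w y.1 = v y := fun y => by simp only [w]; rw [dif_neg y.2]
  have : w = 0 := by
    apply H
    funext x
    change ∑ y, tot d L x y * w y = 0
    rw [sum_split]
    have e2 : ∑ y : Ev rk L, tot d L x y.1 * w y.1 = 0 :=
      Finset.sum_eq_zero fun y _ => by rw [hw1, mul_zero]
    rw [e2, zero_add]
    by_cases hx : Even (x.1 : ℕ)
    · have := congrFun hv ⟨x, hx⟩
      refine Eq.trans (Finset.sum_congr rfl fun y _ => ?_) this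
      rw [hw2]; rfl
    · refine Finset.sum_eq_zero fun y _ => ?_
      rw [tot_parity d x y.1 (iff_of_false hx y.2), zero_mul]
  funext y
  rw [← hw2, this]; rfl

lemma card_le_of_inj {α β : Type} [Fintype α] [Fintype β] (M : Matrix β α ℂ)
    (h : ∀ v, M.mulVec v = 0 → v = 0) : Fintype.card α ≤ Fintype.card β := by
  have hi : Function.Injective M.mulVecLin := (injective_iff_map_eq_zero _).mpr h
  have := LinearMap.finrank_le_finrank_of_injective hi
  simpa using this

/-- The even-odd block of an exact complex is bijective. -/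
theorem evod_bij {L : ℕ} (H : ∀ v : Tot rk L → ℂ, (tot d L).mulVec v = 0 → v = 0) :
    Function.Bijective (evod d L).mulVec := by
  have h1 := card_le_of_inj _ (evod_inj d H)
  have h2 := card_le_of_inj _ (odev_inj d H)
  have hi : Function.Injective (evod d L).mulVecLin := (injective_iff_map_eq_zero _).mpr (evod_inj d H)
  have hs : Function.Surjective (evod d L).mulVecLin := by
    rw [← LinearMap.injective_iff_surjective_of_finrank_eq_finrank]
    · exact hi
    · rw [Module.finrank_fintype_fun_eq_card, Module.finrank_fintype_fun_eq_card]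
      exact le_antisymm h1 h2
  exact ⟨hi, hs⟩

end one

end Pool.Agent.Helper39.BPC
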