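import Pool.Agent.Helper39.BPC.Cx

/-!
PROJECT BP (MP_1cfd37_ag), block C: corollary KC for an exact complex.
-/

set_option autoImplicit false

namespace Pool.Agent.Helper39.BPC

open Complex Matrix

/-- The unit sphere. -/
def Sph (m : ℕ) : Set (Fin m → ℂ) := {z | ∑ i, ‖z i‖ ^ 2 = 1}

lemma sph_I {m : ℕ} {z : Fin m → ℂ} (hz : z ∈ Sph m) : (fun a => Complex.I * z a) ∈ Sph m := by
  have : ∑ i, ‖z i‖ ^ 2 = 1 := hz
  change ∑ i, ‖Complex.I * z i‖ ^ 2 = 1
  simpa using this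

lemma dd_sign {rk : ℕ → ℕ} (d d' : (i : ℕ) → Matrix (Fin (rk i)) (Fin (rk (i + 1))) ℂ)
    (sg : (i : ℕ) → Fin (rk i) → ℤ) (L : ℕ)
    (h : ∀ i < L, ∀ a b, d' i a b = (sg i a : ℂ) * d i a b * (sg (i + 1) b : ℂ)) (i j : ℕ) (hj : j ≤ L)
    (a : Fin (rk i)) (b : Fin (rk j)) : dd d' i j a b = (sg i a : ℂ) * dd d i j a b * (sg j b : ℂ) := by
  by_cases hij : i + 1 = j
  · subst hij
    rw [dd_succ, dd_succ, h i (by omega)]
  · rw [dd_ne d hij, dd_ne d' hij]
    simp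

lemma dd_cont {m : ℕ} {rk : ℕ → ℕ} (d : (i : ℕ) → (Fin m → ℂ) → Matrix (Fin (rk i)) (Fin (rk (i + 1))) ℂ)
    (L : ℕ) (h : ∀ i < L, ContinuousOn (d i) (Sph m)) (i j : ℕ) (hj : j ≤ L)
    (a : Fin (rk i)) (b : Fin (rk j)) : ContinuousOn (fun z => dd (fun i => d i z) i j a b) (Sph m) := by
  by_cases hij : i + 1 = j
  · subst hij
    have h1 := h i (by omega)
    have : (fun z => dd (fun i => d i z) i (i + 1) a b) = fun z => d i z a b := by
      funext z; rw [dd_succ]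
    rw [this]
    exact (continuous_apply_apply a b).comp_continuousOn h1
  · have : (fun z => dd (fun i => d i z) i j a b) = fun z => 0 := by
      funext z; rw [dd_ne _ hij]; rfl
    rw [this]
    exact continuousOn_const

/-- COROLLARY KC for an exact complex. -/
theorem exCx (KC : CorK) (m p L : ℕ) (hL : 0 < L) (rk : ℕ → ℕ) (sg : (i : ℕ) → Fin (rk i) → ℤ)
    (hsg : ∀ i j, sg i j = 1 ∨ sg i j = -1)
    (d : (i : ℕ) → (Fin m → ℂ) → Matrix (Fin (rk i)) (Fin (rk (i + 1))) ℂ)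
    (hd : ∀ i < L, ContinuousOn (d i) (Sph m))
    (heq : ∀ i < L, ∀ z ∈ Sph m, ∀ a b,
      d i (fun a => Complex.I * z a) a b = (sg i a : ℂ) * d i z a b * (sg (i + 1) b : ℂ))
    (Xs : ∀ z ∈ Sph m, ∀ v, ∃ u, (d 0 z).mulVec u = v)
    (X : ∀ z ∈ Sph m, ∀ i, i + 1 < L → Ex2 (d i z) (d (i + 1) z))
    (Xi : ∀ z ∈ Sph m, ∀ i, i + 1 = L → ∀ u, (d i z).mulVec u = 0 → u = 0)
    (c : ℤ) (hc : Odd c)
    (P : ∑ i ∈ Finset.range (L + 1), (-1 : ℤ) ^ i * ∑ j, sg i j = 2 ^ p * c) : m ≤ 2 * p := by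
  classical
  have sq1 : ∀ i (a : Fin (rk i)), (sg i a : ℂ) * (sg i a : ℂ) = 1 := by
    intro i a
    rcases hsg i a with h | h <;> simp [h]
  refine KC m p (a := Ev rk L) (b := Od rk L) (fun x => sg x.1.1 x.1.2) (fun x => sg x.1.1 x.1.2)
    (fun x => hsg _ _) (fun x => hsg _ _) (fun z => evod (fun i => d i z) L) ?_ ?_ ?_ c hc ?_
  · refine continuousOn_pi.mpr fun x => continuousOn_pi.mpr fun y => ?_
    refine ContinuousOn.add ?_ ?_
    · exact dd_cont d L hd _ _ (by omega) _ _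
    · exact continuous_star.comp_continuousOn (dd_cont d L hd _ _ (by omega) _ _)
  · intro z hz
    exact evod_bij _ (tot_inj _ hL (Xs z hz) (X z hz) (Xi z hz))
  · intro z hz x y
    change (dd (fun i => d i (fun a => Complex.I * z a)) x.1.1 y.1.1 x.1.2 y.1.2 +
        star (dd (fun i => d i (fun a => Complex.I * z a)) y.1.1 x.1.1 y.1.2 x.1.2)) * _ =
      _ * (dd (fun i => d i z) x.1.1 y.1.1 x.1.2 y.1.2 + star (dd (fun i => d i z) y.1.1 x.1.1 y.1.2 x.1.2))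
    rw [dd_sign (fun i => d i z) (fun i => d i (fun a => Complex.I * z a)) sg L
        (fun i hi a b => heq i hi z hz a b) _ _ (by omega),
      dd_sign (fun i => d i z) (fun i => d i (fun a => Complex.I * z a)) sg L
        (fun i hi a b => heq i hi z hz a b) _ _ (by omega)]
    simp only [star_mul', Complex.star_def, map_intCast]
    have e1 := sq1 y.1.1 y.1.2
    linear_combination ((sg x.1.1 x.1.2 : ℂ) * dd (fun i => d i z) x.1.1 y.1.1 x.1.2 y.1.2 +
      (sg x.1.1 x.1.2 : ℂ) * (starRingEnd ℂ) (dd (fun i => d i z) y.1.1 x.1.1 y.1.2 x.1.2)) * e1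
  · rw [← P]
    have e1 : ∑ i ∈ Finset.range (L + 1), (-1 : ℤ) ^ i * ∑ j, sg i j =
        ∑ x : Tot rk L, (-1 : ℤ) ^ (x.1 : ℕ) * sg x.1 x.2 := by
      rw [← Fin.sum_univ_eq_sum_range (fun i => (-1 : ℤ) ^ i * ∑ j, sg i j), Fintype.sum_sigma]
      refine Finset.sum_congr rfl fun i _ => ?_
      rw [Finset.mul_sum]
    rw [e1, ← Fintype.sum_subtype_add_sum_subtype (fun x : Tot rk L => Even (x.1 : ℕ)), sub_eq_add_neg,
      ← Finset.sum_neg_distrib]
    congr 1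
    · refine Finset.sum_congr rfl fun x _ => ?_
      rw [x.2.neg_one_pow, one_mul]
    · refine Finset.sum_congr rfl fun x _ => ?_
      rw [(Nat.not_even_iff_odd.mp x.2).neg_one_pow]; ring

end Pool.Agent.Helper39.BPC
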