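import Pool.Agent.Helper39.BPC.ExCx

/-!
PROJECT BP (MP_1cfd37_ag), block C: the continuous projection on `ker A = im B`.
-/

set_option autoImplicit false

namespace Pool.Agent.Helper39.BPC

open Complex Matrix

variable {a b c : ℕ}

/-- `A^* A + B B^*`. -/
def Dl (A : Matrix (Fin a) (Fin b) ℂ) (B : Matrix (Fin b) (Fin c) ℂ) : Matrix (Fin b) (Fin b) ℂ := Aᴴ * A + B * Bᴴ

/-- The projection on `ker A = im B`. -/
noncomputable def Pr (A : Matrix (Fin a) (Fin b) ℂ) (B : Matrix (Fin b) (Fin c) ℂ) : Matrix (Fin b) (Fin b) ℂ :=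
  B * Bᴴ * (Dl A B)⁻¹

lemma Ex2.mul {A : Matrix (Fin a) (Fin b) ℂ} {B : Matrix (Fin b) (Fin c) ℂ} (h : Ex2 A B) : A * B = 0 := by
  rw [Matrix.ext_iff_mulVec]
  intro v
  rw [← Matrix.mulVec_mulVec, (h _).mpr ⟨v, rfl⟩, Matrix.zero_mulVec]

lemma Ex2.det {A : Matrix (Fin a) (Fin b) ℂ} {B : Matrix (Fin b) (Fin c) ℂ} (h : Ex2 A B) :
    (Dl A B).det ≠ 0 := by
  intro h0
  obtain ⟨v, hv, h1⟩ := Matrix.exists_mulVec_eq_zero_iff.mpr h0
  apply hv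
  have hAB := h.mul
  have hBA : Bᴴ * Aᴴ = 0 := by rw [← Matrix.conjTranspose_mul, hAB, Matrix.conjTranspose_zero]
  have h2 : Bᴴ.mulVec (B.mulVec (Bᴴ.mulVec v)) = 0 := by
    have : Bᴴ.mulVec ((Dl A B).mulVec v) = 0 := by rw [h1, Matrix.mulVec_zero]
    unfold Dl at this
    rw [Matrix.mulVec_mulVec, Matrix.mul_add, ← Matrix.mul_assoc, hBA, Matrix.zero_mul, zero_add] at this
    rw [Matrix.mulVec_mulVec, Matrix.mulVec_mulVec, Matrix.mul_assoc]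
    exact this
  have h3 : B.mulVec (Bᴴ.mulVec v) = 0 := by
    have := adj_zero Bᴴ (Bᴴ.mulVec v)
    rw [Matrix.conjTranspose_conjTranspose] at this
    exact this h2
  have h4 : Bᴴ.mulVec v = 0 := adj_zero B v h3
  have h5 : Aᴴ.mulVec (A.mulVec v) = 0 := by
    unfold Dl at h1
    rw [Matrix.add_mulVec, ← Matrix.mulVec_mulVec, ← Matrix.mulVec_mulVec, h3, add_zero] at h1
    exact h1
  have h6 : A.mulVec v = 0 := by
    have := adj_zero Aᴴ v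
    rw [Matrix.conjTranspose_conjTranspose] at this
    exact this h5
  obtain ⟨u, hu⟩ := (h v).mp h6
  exact img_zero B v u hu h4

lemma Pr_mul_B {A : Matrix (Fin a) (Fin b) ℂ} {B : Matrix (Fin b) (Fin c) ℂ} (h : Ex2 A B) : Pr A B * B = B := by
  have hd : IsUnit (Dl A B).det := isUnit_iff_ne_zero.mpr h.det
  have hAB := h.mul
  have hBA : Bᴴ * Aᴴ = 0 := by rw [← Matrix.conjTranspose_mul, hAB, Matrix.conjTranspose_zero]
  have e1 : Dl A B * (B * Bᴴ) = (B * Bᴴ) * Dl A B := by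
    unfold Dl
    rw [Matrix.add_mul, Matrix.mul_add]
    congr 1
    rw [Matrix.mul_assoc, ← Matrix.mul_assoc A, hAB, Matrix.zero_mul, Matrix.mul_zero, Matrix.mul_assoc,
      ← Matrix.mul_assoc Bᴴ, hBA, Matrix.zero_mul, Matrix.mul_zero]
  have e2 : B * Bᴴ * (Dl A B)⁻¹ = (Dl A B)⁻¹ * (B * Bᴴ) := by
    calc B * Bᴴ * (Dl A B)⁻¹ = ((Dl A B)⁻¹ * Dl A B) * (B * Bᴴ) * (Dl A B)⁻¹ := by
          rw [Matrix.nonsing_inv_mul _ hd, Matrix.one_mul]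
      _ = (Dl A B)⁻¹ * (B * Bᴴ) * (Dl A B * (Dl A B)⁻¹) := by
          rw [Matrix.mul_assoc (Dl A B)⁻¹, e1]; simp only [Matrix.mul_assoc]
      _ = _ := by rw [Matrix.mul_nonsing_inv _ hd, Matrix.mul_one]
  have e3 : Dl A B * B = B * Bᴴ * B := by
    unfold Dl
    rw [Matrix.add_mul, Matrix.mul_assoc, hAB, Matrix.mul_zero, zero_add]
  unfold Pr
  rw [e2, Matrix.mul_assoc, ← e3, ← Matrix.mul_assoc, Matrix.nonsing_inv_mul _ hd, Matrix.one_mul]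

lemma A_mul_Pr {A : Matrix (Fin a) (Fin b) ℂ} {B : Matrix (Fin b) (Fin c) ℂ} (h : Ex2 A B) : A * Pr A B = 0 := by
  unfold Pr
  rw [Matrix.mul_assoc, ← Matrix.mul_assoc, h.mul, Matrix.zero_mul]

lemma Pr_idem {A : Matrix (Fin a) (Fin b) ℂ} {B : Matrix (Fin b) (Fin c) ℂ} (h : Ex2 A B) :
    Pr A B * Pr A B = Pr A B := by
  have e : Pr A B = B * (Bᴴ * (Dl A B)⁻¹) := by unfold Pr; rw [Matrix.mul_assoc]
  conv_lhs => rw [e]
  rw [← Matrix.mul_assoc, Matrix.mul_assoc B]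
  conv_rhs => rw [e]
  have := Pr_mul_B h
  rw [e] at this
  rw [← Matrix.mul_assoc B, this]

lemma Pr_fix {A : Matrix (Fin a) (Fin b) ℂ} {B : Matrix (Fin b) (Fin c) ℂ} (h : Ex2 A B) (v : Fin b → ℂ) :
    (Pr A B).mulVec v = v ↔ A.mulVec v = 0 := by
  constructor
  · intro hv
    rw [← hv, Matrix.mulVec_mulVec, A_mul_Pr h, Matrix.zero_mulVec]
  · intro hv
    obtain ⟨u, rfl⟩ := (h v).mp hv
    rw [Matrix.mulVec_mulVec, Pr_mul_B h]

lemma Pr_eq (A : Matrix (Fin a) (Fin b) ℂ) (B : Matrix (Fin b) (Fin c) ℂ) :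
    Pr A B = (Dl A B).det⁻¹ • (B * Bᴴ * (Dl A B).adjugate) := by
  unfold Pr
  rw [Matrix.inv_def, Ring.inverse_eq_inv', Matrix.mul_smul]

lemma Dl_cont : Continuous fun q : Matrix (Fin a) (Fin b) ℂ × Matrix (Fin b) (Fin c) ℂ => Dl q.1 q.2 := by
  unfold Dl
  have h1 : Continuous fun q : Matrix (Fin a) (Fin b) ℂ × Matrix (Fin b) (Fin c) ℂ => q.1ᴴ * q.1 :=
    (continuous_fst.matrix_conjTranspose).matrix_mul continuous_fst
  have h2 : Continuous fun q : Matrix (Fin a) (Fin b) ℂ × Matrix (Fin b) (Fin c) ℂ => q.2 * q.2ᴴ :=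
    continuous_snd.matrix_mul (continuous_snd.matrix_conjTranspose)
  exact h1.add h2

lemma Num_cont : Continuous fun q : Matrix (Fin a) (Fin b) ℂ × Matrix (Fin b) (Fin c) ℂ =>
    q.2 * q.2ᴴ * (Dl q.1 q.2).adjugate := by
  have h2 : Continuous fun q : Matrix (Fin a) (Fin b) ℂ × Matrix (Fin b) (Fin c) ℂ => q.2 * q.2ᴴ :=
    continuous_snd.matrix_mul (continuous_snd.matrix_conjTranspose)
  exact h2.matrix_mul Dl_cont.matrix_adjugate

lemma Det_cont : Continuous fun q : Matrix (Fin a) (Fin b) ℂ × Matrix (Fin b) (Fin c) ℂ => (Dl q.1 q.2).det :=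
  Dl_cont.matrix_det

theorem Pr_cont {X : Type*} [TopologicalSpace X] {S : Set X} {A : X → Matrix (Fin a) (Fin b) ℂ}
    {B : X → Matrix (Fin b) (Fin c) ℂ} (hA : ContinuousOn A S) (hB : ContinuousOn B S)
    (h : ∀ x ∈ S, Ex2 (A x) (B x)) : ContinuousOn (fun x => Pr (A x) (B x)) S := by
  have hAB : ContinuousOn (fun x => (A x, B x)) S := hA.prodMk hB
  have h1 : ContinuousOn (fun x => (Dl (A x) (B x)).det) S :=
    Continuous.comp_continuousOn (g := fun q : Matrix (Fin a) (Fin b) ℂ × Matrix (Fin b) (Fin c) ℂ =>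
      (Dl q.1 q.2).det) (f := fun x => (A x, B x)) Det_cont hAB
  have h2 : ContinuousOn (fun x => B x * (B x)ᴴ * (Dl (A x) (B x)).adjugate) S :=
    Continuous.comp_continuousOn (g := fun q : Matrix (Fin a) (Fin b) ℂ × Matrix (Fin b) (Fin c) ℂ =>
      q.2 * q.2ᴴ * (Dl q.1 q.2).adjugate) (f := fun x => (A x, B x)) Num_cont hAB
  have h3 : ContinuousOn (fun x => ((Dl (A x) (B x)).det)⁻¹) S := h1.inv₀ fun x hx => (h x hx).det
  have h4 : (fun x => Pr (A x) (B x)) =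
      fun x => ((Dl (A x) (B x)).det)⁻¹ • (B x * (B x)ᴴ * (Dl (A x) (B x)).adjugate) :=
    funext fun x => Pr_eq _ _
  rw [h4]
  exact h3.smul h2

lemma eqv1 {B B' : Matrix (Fin b) (Fin c) ℂ} {Eb : Matrix (Fin b) (Fin b) ℂ} {Ec : Matrix (Fin c) (Fin c) ℂ}
    (hc : Ec * Ec = 1) (hb' : Ebᴴ = Eb) (hc' : Ecᴴ = Ec) (hB : B' = Eb * B * Ec) :
    B' * B'ᴴ = Eb * (B * Bᴴ) * Eb := by
  rw [hB, Matrix.conjTranspose_mul, Matrix.conjTranspose_mul, hb', hc']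
  have e : Ec * (Ec * (Bᴴ * Eb)) = Bᴴ * Eb := by rw [← Matrix.mul_assoc Ec, hc, Matrix.one_mul]
  rw [Matrix.mul_assoc (Eb * B), e, Matrix.mul_assoc Eb B, Matrix.mul_assoc Eb (B * Bᴴ), Matrix.mul_assoc B]

lemma eqv2 {A A' : Matrix (Fin a) (Fin b) ℂ} {Ea : Matrix (Fin a) (Fin a) ℂ} {Eb : Matrix (Fin b) (Fin b) ℂ}
    (ha : Ea * Ea = 1) (ha' : Eaᴴ = Ea) (hb' : Ebᴴ = Eb) (hA : A' = Ea * A * Eb) :
    A'ᴴ * A' = Eb * (Aᴴ * A) * Eb := by
  rw [hA, Matrix.conjTranspose_mul, Matrix.conjTranspose_mul, hb', ha', Matrix.mul_assoc Ea A]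
  have e : Ea * (Ea * (A * Eb)) = A * Eb := by rw [← Matrix.mul_assoc Ea, ha, Matrix.one_mul]
  rw [Matrix.mul_assoc Eb, Matrix.mul_assoc Aᴴ, e, Matrix.mul_assoc Eb, Matrix.mul_assoc Aᴴ]

lemma eqv3 {D D' E C C' : Matrix (Fin b) (Fin b) ℂ} (hb : E * E = 1) (hD : D' = E * D * E) (hC : C' = E * C * E) :
    C' * D'⁻¹ = E * (C * D⁻¹) * E := by
  have e4 : E⁻¹ = E := Matrix.inv_eq_left_inv hb
  have e5 : D'⁻¹ = E * D⁻¹ * E := by
    rw [hD, Matrix.mul_inv_rev, Matrix.mul_inv_rev, e4, Matrix.mul_assoc]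
  have e6 : E * (E * (D⁻¹ * E)) = D⁻¹ * E := by rw [← Matrix.mul_assoc E, hb, Matrix.one_mul]
  rw [hC, e5, Matrix.mul_assoc E D⁻¹, Matrix.mul_assoc (E * C), e6, Matrix.mul_assoc E C,
    Matrix.mul_assoc E (C * D⁻¹), Matrix.mul_assoc C]

/-- Equivariance of the projection. -/
theorem Pr_eqv {A A' : Matrix (Fin a) (Fin b) ℂ} {B B' : Matrix (Fin b) (Fin c) ℂ} {Ea : Matrix (Fin a) (Fin a) ℂ}
    {Eb : Matrix (Fin b) (Fin b) ℂ} {Ec : Matrix (Fin c) (Fin c) ℂ} (ha : Ea * Ea = 1) (hb : Eb * Eb = 1)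
    (hc : Ec * Ec = 1) (ha' : Eaᴴ = Ea) (hb' : Ebᴴ = Eb) (hc' : Ecᴴ = Ec) (hA : A' = Ea * A * Eb)
    (hB : B' = Eb * B * Ec) : Pr A' B' = Eb * Pr A B * Eb := by
  have e1 := eqv1 hc hb' hc' hB
  have e2 := eqv2 ha ha' hb' hA
  have e3 : Dl A' B' = Eb * Dl A B * Eb := by
    unfold Dl
    rw [e1, e2, Matrix.mul_add, Matrix.add_mul]
  exact eqv3 hb e3 e1

end Pool.Agent.Helper39.BPC
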