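import Pool.Agent.Helper39.BPC.Proj

/-!
PROJECT BP (MP_1cfd37_ag), block C: transport along a continuous family of idempotents.
-/

set_option autoImplicit false

namespace Pool.Agent.Helper39.BPC

open Matrix

/-- One step of the transport. -/
def St {b : ℕ} (Q P : Matrix (Fin b) (Fin b) ℂ) : Matrix (Fin b) (Fin b) ℂ := Q * P + (1 - Q) * (1 - P)

lemma St_self {b : ℕ} {P : Matrix (Fin b) (Fin b) ℂ} (h : P * P = P) : St P P = 1 := by
  unfold St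
  rw [sub_mul, one_mul, mul_sub, mul_one, h]
  abel

lemma St_comm {b : ℕ} {P Q : Matrix (Fin b) (Fin b) ℂ} (hP : P * P = P) (hQ : Q * Q = Q) :
    Q * St Q P = St Q P * P := by
  unfold St
  rw [mul_add, add_mul, ← mul_assoc, hQ, ← mul_assoc, mul_sub Q, mul_one, hQ, sub_self, zero_mul, add_zero,
    mul_assoc, hP, mul_assoc, sub_mul 1 P P, one_mul, hP, sub_self, mul_zero, add_zero]

lemma St_conj {b : ℕ} {P Q E : Matrix (Fin b) (Fin b) ℂ} (hE : E * E = 1) :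
    St (E * Q * E) (E * P * E) = E * St Q P * E := by
  have h1 : (1 : Matrix (Fin b) (Fin b) ℂ) - E * Q * E = E * (1 - Q) * E := by
    rw [mul_sub, mul_one, sub_mul, hE]
  have h2 : (1 : Matrix (Fin b) (Fin b) ℂ) - E * P * E = E * (1 - P) * E := by
    rw [mul_sub, mul_one, sub_mul, hE]
  have h3 : ∀ X Y : Matrix (Fin b) (Fin b) ℂ, (E * X * E) * (E * Y * E) = E * (X * Y) * E := by
    intro X Y
    have e : E * (E * (Y * E)) = Y * E := by rw [← mul_assoc E, hE, one_mul]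
    rw [mul_assoc E Y, mul_assoc (E * X), e, mul_assoc E X, mul_assoc E (X * Y), mul_assoc X]
  unfold St
  rw [h1, h2, h3, h3, mul_add, add_mul]

lemma St_cont {b : ℕ} : Continuous fun q : Matrix (Fin b) (Fin b) ℂ × Matrix (Fin b) (Fin b) ℂ => St q.1 q.2 := by
  unfold St
  have h1 : Continuous fun q : Matrix (Fin b) (Fin b) ℂ × Matrix (Fin b) (Fin b) ℂ => q.1 * q.2 :=
    continuous_fst.matrix_mul continuous_snd
  have h2 : Continuous fun q : Matrix (Fin b) (Fin b) ℂ × Matrix (Fin b) (Fin b) ℂ => (1 - q.1) * (1 - q.2) :=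
    (continuous_const.sub continuous_fst).matrix_mul (continuous_const.sub continuous_snd)
  exact h1.add h2

lemma St_contOn {X : Type*} [TopologicalSpace X] {S : Set X} {b : ℕ} {P Q : X → Matrix (Fin b) (Fin b) ℂ}
    (hQ : ContinuousOn Q S) (hP : ContinuousOn P S) : ContinuousOn (fun x => St (Q x) (P x)) S :=
  Continuous.comp_continuousOn (g := fun q : Matrix (Fin b) (Fin b) ℂ × Matrix (Fin b) (Fin b) ℂ => St q.1 q.2)
    (f := fun x => (Q x, P x)) St_cont (hQ.prodMk hP)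

lemma mul_contOn {X : Type*} [TopologicalSpace X] {S : Set X} {a b c : ℕ} {P : X → Matrix (Fin a) (Fin b) ℂ}
    {Q : X → Matrix (Fin b) (Fin c) ℂ} (hP : ContinuousOn P S) (hQ : ContinuousOn Q S) :
    ContinuousOn (fun x => P x * Q x) S :=
  Continuous.comp_continuousOn (g := fun q : Matrix (Fin a) (Fin b) ℂ × Matrix (Fin b) (Fin c) ℂ => q.1 * q.2)
    (f := fun x => (P x, Q x)) (continuous_fst.matrix_mul continuous_snd) (hP.prodMk hQ)

/-- Uniform smallness of the step. -/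
theorem exists_steps {X : Type*} [PseudoMetricSpace X] (S : Set X) (hS : IsCompact S) {b : ℕ}
    (P : X → ℝ → Matrix (Fin b) (Fin b) ℂ)
    (hP : ContinuousOn (fun x : X × ℝ => P x.1 x.2) (S ×ˢ Set.Icc 0 1))
    (hid : ∀ z ∈ S, ∀ s ∈ Set.Icc (0 : ℝ) 1, P z s * P z s = P z s) :
    ∃ N : ℕ, 0 < N ∧ ∀ z ∈ S, ∀ k < N, (St (P z ((k + 1 : ℕ) / (N : ℝ))) (P z ((k : ℕ) / (N : ℝ)))).det ≠ 0 := by
  have hK : IsCompact (S ×ˢ (Set.Icc (0 : ℝ) 1 ×ˢ Set.Icc (0 : ℝ) 1)) := hS.prod (isCompact_Icc.prod isCompact_Icc)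
  let f : X × (ℝ × ℝ) → ℂ := fun x => (St (P x.1 x.2.1) (P x.1 x.2.2)).det
  have h1 : ContinuousOn (fun x : X × (ℝ × ℝ) => P x.1 x.2.1) (S ×ˢ (Set.Icc (0 : ℝ) 1 ×ˢ Set.Icc (0 : ℝ) 1)) :=
    hP.comp (f := fun x : X × (ℝ × ℝ) => (x.1, x.2.1)) (by fun_prop) (fun x hx => ⟨hx.1, hx.2.1⟩)
  have h2 : ContinuousOn (fun x : X × (ℝ × ℝ) => P x.1 x.2.2) (S ×ˢ (Set.Icc (0 : ℝ) 1 ×ˢ Set.Icc (0 : ℝ) 1)) :=
    hP.comp (f := fun x : X × (ℝ × ℝ) => (x.1, x.2.2)) (by fun_prop) (fun x hx => ⟨hx.1, hx.2.2⟩)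
  have hf : ContinuousOn f (S ×ˢ (Set.Icc (0 : ℝ) 1 ×ˢ Set.Icc (0 : ℝ) 1)) :=
    Continuous.comp_continuousOn (g := fun M : Matrix (Fin b) (Fin b) ℂ => M.det)
      (f := fun x : X × (ℝ × ℝ) => St (P x.1 x.2.1) (P x.1 x.2.2)) continuous_id.matrix_det (St_contOn h1 h2)
  have hu := hK.uniformContinuousOn_of_continuous hf
  rw [Metric.uniformContinuousOn_iff] at hu
  obtain ⟨δ, hδ, h3⟩ := hu 1 one_pos
  obtain ⟨N, hN⟩ := exists_nat_gt (1 / δ)
  have hN0 : (0 : ℝ) < N := lt_trans (by positivity) hN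
  have hNpos : 0 < N := by exact_mod_cast hN0
  refine ⟨N, hNpos, fun z hz k hk h0 => ?_⟩
  have hk1 : ((k : ℕ) / (N : ℝ)) ∈ Set.Icc (0 : ℝ) 1 := by
    constructor
    · positivity
    · rw [div_le_one hN0]; exact_mod_cast hk.le
  have hk2 : ((k + 1 : ℕ) / (N : ℝ)) ∈ Set.Icc (0 : ℝ) 1 := by
    constructor
    · positivity
    · rw [div_le_one hN0]; exact_mod_cast hk
  have hdist : dist ((z, (((k + 1 : ℕ) / (N : ℝ)), ((k : ℕ) / (N : ℝ)))) : X × (ℝ × ℝ))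
      (z, (((k : ℕ) / (N : ℝ)), ((k : ℕ) / (N : ℝ)))) < δ := by
    rw [Prod.dist_eq, Prod.dist_eq]
    simp only [dist_self]
    have : dist ((k + 1 : ℕ) / (N : ℝ)) ((k : ℕ) / (N : ℝ)) < δ := by
      rw [Real.dist_eq]
      have e : ((k + 1 : ℕ) / (N : ℝ)) - ((k : ℕ) / (N : ℝ)) = 1 / N := by push_cast; ring
      rw [e, abs_of_pos (by positivity)]
      rw [div_lt_iff₀ hN0]
      have := (div_lt_iff₀ hδ).mp hN
      linarith
    exact max_lt hδ (max_lt this hδ)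
  have h4 := h3 _ ⟨hz, hk2, hk1⟩ _ ⟨hz, hk1, hk1⟩ hdist
  have h5 : f (z, (((k : ℕ) / (N : ℝ)), ((k : ℕ) / (N : ℝ)))) = 1 := by
    change (St (P z ((k : ℕ) / (N : ℝ))) (P z ((k : ℕ) / (N : ℝ)))).det = 1
    rw [St_self (hid z hz _ hk1), Matrix.det_one]
  have h6 : f (z, (((k + 1 : ℕ) / (N : ℝ)), ((k : ℕ) / (N : ℝ)))) = 0 := h0
  rw [h5, h6, dist_comm, dist_zero_right, norm_one] at h4
  exact lt_irrefl _ h4

/-- TRANSPORT. -/
theorem transport {X : Type*} [PseudoMetricSpace X] (S : Set X) (hS : IsCompact S) {b : ℕ}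
    (P : X → ℝ → Matrix (Fin b) (Fin b) ℂ)
    (hP : ContinuousOn (fun x : X × ℝ => P x.1 x.2) (S ×ˢ Set.Icc 0 1))
    (hid : ∀ z ∈ S, ∀ s ∈ Set.Icc (0 : ℝ) 1, P z s * P z s = P z s)
    (τ : X → X) (E : Matrix (Fin b) (Fin b) ℂ) (hE : E * E = 1)
    (heq : ∀ z ∈ S, ∀ s ∈ Set.Icc (0 : ℝ) 1, P (τ z) s = E * P z s * E) :
    ∃ θ : X → Matrix (Fin b) (Fin b) ℂ, ContinuousOn θ S ∧ (∀ z ∈ S, (θ z).det ≠ 0) ∧
      (∀ z ∈ S, P z 1 * θ z = θ z * P z 0) ∧ ∀ z ∈ S, θ (τ z) = E * θ z * E := by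
  obtain ⟨N, hN, hdet⟩ := exists_steps S hS P hP hid
  have hN0 : (0 : ℝ) < N := by exact_mod_cast hN
  have hmem : ∀ k ≤ N, ((k : ℕ) / (N : ℝ)) ∈ Set.Icc (0 : ℝ) 1 := by
    intro k hk
    constructor
    · positivity
    · rw [div_le_one hN0]; exact_mod_cast hk
  have hc : ∀ k ≤ N, ContinuousOn (fun z => P z ((k : ℕ) / (N : ℝ))) S := by
    intro k hk
    exact hP.comp (f := fun z : X => (z, ((k : ℕ) / (N : ℝ)))) (by fun_prop) (fun x hx => ⟨hx, hmem k hk⟩)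
  have key : ∀ k ≤ N, ∃ θ : X → Matrix (Fin b) (Fin b) ℂ, ContinuousOn θ S ∧ (∀ z ∈ S, (θ z).det ≠ 0) ∧
      (∀ z ∈ S, P z ((k : ℕ) / (N : ℝ)) * θ z = θ z * P z 0) ∧ ∀ z ∈ S, θ (τ z) = E * θ z * E := by
    intro k
    induction k with
    | zero =>
      intro _
      refine ⟨fun _ => 1, continuousOn_const, fun z _ => by simp, fun z _ => by simp, fun z _ => by
        rw [mul_one, hE]⟩
    | succ k ih =>
      intro hk
      obtain ⟨θ, h1, h2, h3, h4⟩ := ih (by omega)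
      refine ⟨fun z => St (P z ((k + 1 : ℕ) / (N : ℝ))) (P z ((k : ℕ) / (N : ℝ))) * θ z,
        mul_contOn (St_contOn (hc (k + 1) hk) (hc k (by omega))) h1, fun z hz => ?_, fun z hz => ?_, fun z hz => ?_⟩
      · change (St (P z ((k + 1 : ℕ) / (N : ℝ))) (P z ((k : ℕ) / (N : ℝ))) * θ z).det ≠ 0
        rw [Matrix.det_mul]
        exact mul_ne_zero (hdet z hz k (by omega)) (h2 z hz)
      · change P z ((k + 1 : ℕ) / (N : ℝ)) * (St (P z ((k + 1 : ℕ) / (N : ℝ))) (P z ((k : ℕ) / (N : ℝ))) * θ z) =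
          St (P z ((k + 1 : ℕ) / (N : ℝ))) (P z ((k : ℕ) / (N : ℝ))) * θ z * P z 0
        rw [← mul_assoc, St_comm (hid z hz _ (hmem k (by omega))) (hid z hz _ (hmem (k + 1) hk)), mul_assoc,
          h3 z hz, mul_assoc]
      · change St (P (τ z) ((k + 1 : ℕ) / (N : ℝ))) (P (τ z) ((k : ℕ) / (N : ℝ))) * θ (τ z) =
          E * (St (P z ((k + 1 : ℕ) / (N : ℝ))) (P z ((k : ℕ) / (N : ℝ))) * θ z) * E
        rw [heq z hz _ (hmem (k + 1) hk), heq z hz _ (hmem k (by omega)), h4 z hz, St_conj hE]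
        have e : E * (E * (θ z * E)) = θ z * E := by rw [← mul_assoc E, hE, one_mul]
        simp only [mul_assoc, e]
  obtain ⟨θ, h1, h2, h3, h4⟩ := key N le_rfl
  refine ⟨θ, h1, h2, fun z hz => ?_, h4⟩
  have := h3 z hz
  rwa [div_self hN0.ne'] at this

end Pool.Agent.Helper39.BPC
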